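import Pool.Agent.QSX.StmtsB

/-!
# Row LMT of squad QSX: exact zeros near almost zeros, several variables
-/

set_option autoImplicit false

namespace Pool.Agent.QSX.H92

open Matrix Finset

/-- value at `(z, t)` of a polynomial with coefficients in a polynomial ring -/
noncomputable def E {n : ℕ} (z : Fin n → ℝ) (t : ℝ) :
    Polynomial (MvPolynomial (Fin n) ℝ) →+* ℝ :=
  (Polynomial.evalRingHom t).comp (Polynomial.mapRingHom (MvPolynomial.eval z))

theorem E_apply {n : ℕ} (z : Fin n → ℝ) (t : ℝ) (f : Polynomial (MvPolynomial (Fin n) ℝ)) :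
    E z t f = (f.map (MvPolynomial.eval z)).eval t := rfl

theorem E_C {n : ℕ} (z : Fin n → ℝ) (t : ℝ) (a : MvPolynomial (Fin n) ℝ) :
    E z t (Polynomial.C a) = MvPolynomial.eval z a := by
  rw [E_apply, Polynomial.map_C, Polynomial.eval_C]

theorem eval_cons {n : ℕ} (z : Fin n → ℝ) (t : ℝ) (p : MvPolynomial (Fin (n + 1)) ℝ) :
    MvPolynomial.eval (Fin.cons t z : Fin (n + 1) → ℝ) p =
      E z t (MvPolynomial.finSuccEquiv ℝ n p) :=
  MvPolynomial.eval_eq_eval_mv_eval' z t p

theorem cons_at {n : ℕ} (y : ℕ → ℝ) (c : Fin n → ℕ → ℝ) (s : ℕ) :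
    (fun i => (Fin.cons y c : Fin (n + 1) → ℕ → ℝ) i s) =
      (Fin.cons (y s) (fun i => c i s) : Fin (n + 1) → ℝ) := by
  funext i
  refine Fin.cases ?_ (fun i => ?_) i
  · rfl
  · rfl

theorem sm_neg {S : Scale} {z : ℕ → ℝ} (h : S.Sm z) : S.Sm (fun s => - z s) := by
  obtain ⟨c, hc, h⟩ := h
  refine ⟨c, hc, ?_⟩
  filter_upwards [h] with s hs
  rwa [abs_neg]

/-- the second sequence is small if the first one and the difference are -/
theorem sm_of_diff {S : Scale} {z w : ℕ → ℝ} (h : S.Sm z) (hd : S.Sm (fun s => w s - z s)) :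
    S.Sm w := by
  have h1 := h.add hd
  have h2 : z + (fun s => w s - z s) = w := by
    funext s
    simp only [Pi.add_apply]
    ring
  rwa [h2] at h1

theorem sm_of_diff' {S : Scale} {z w : ℕ → ℝ} (h : S.Sm w) (hd : S.Sm (fun s => w s - z s)) :
    S.Sm z := by
  refine sm_of_diff h ?_
  have h1 := sm_neg hd
  have h2 : (fun s => - (w s - z s)) = fun s => z s - w s := by
    funext s
    ring
  rwa [h2] at h1

theorem md_of_diff {S : Scale} {z w : ℕ → ℝ} (h : S.Md z) (hd : S.Sm (fun s => w s - z s)) :
    S.Md w := by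
  have h1 := h.add hd.md
  have h2 : z + (fun s => w s - z s) = w := by
    funext s
    simp only [Pi.add_apply]
    ring
  rwa [h2] at h1

theorem e_smp (h : SmpStmt) {S : Scale} {n : ℕ} {c c' : Fin n → ℕ → ℝ} {y : ℕ → ℝ}
    (hc : ∀ i, S.Md (c i)) (hc' : ∀ i, S.Sm (fun s => c' i s - c i s)) (hy : S.Md y)
    (f : Polynomial (MvPolynomial (Fin n) ℝ)) :
    S.Md (fun s => E (fun i => c i s) (y s) f) ∧
      S.Sm (fun s => E (fun i => c' i s) (y s) f - E (fun i => c i s) (y s) f) := by
  have h1 := h S (n + 1) (Fin.cons y c) (Fin.cons y c')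
    (by
      intro i
      refine Fin.cases ?_ (fun i => ?_) i
      · exact hy
      · exact hc i)
    (by
      intro i
      refine Fin.cases ?_ (fun i => ?_) i
      · have h2 : (fun s => (Fin.cons y c' : Fin (n + 1) → ℕ → ℝ) 0 s -
            (Fin.cons y c : Fin (n + 1) → ℕ → ℝ) 0 s) = 0 := by
          funext s
          simp
        rw [h2]
        exact Scale.Sm.zero S
      · exact hc' i) ((MvPolynomial.finSuccEquiv ℝ n).symm f)
  simp only [cons_at, eval_cons, AlgEquiv.apply_symm_apply] at h1
  exact h1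

theorem sm_const {S : Scale} {r : ℝ} (h : S.Sm (fun _ => r)) : r = 0 := by
  by_contra hne
  have h1 := Scale.Sm.mul_md (Scale.Md.const S r⁻¹) h
  refine S.one_not_sm ?_
  have h2 : (fun _ : ℕ => r⁻¹) * (fun _ => r) = 1 := by
    funext s
    simp only [Pi.mul_apply, Pi.one_apply]
    exact inv_mul_cancel₀ hne
  rwa [h2] at h1

/-- the ideal of the polynomials with small values -/
noncomputable def PI (S : Scale) {n : ℕ} (c : Fin n → ℕ → ℝ) (y : ℕ → ℝ)
    (hmd : ∀ f : Polynomial (MvPolynomial (Fin n) ℝ),
      S.Md (fun s => E (fun i => c i s) (y s) f)) :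
    Ideal (Polynomial (MvPolynomial (Fin n) ℝ)) where
  carrier := {f | S.Sm (fun s => E (fun i => c i s) (y s) f)}
  add_mem' := by
    intro f g hf hg
    have h1 := Scale.Sm.add hf hg
    have h2 : (fun s => E (fun i => c i s) (y s) f) + (fun s => E (fun i => c i s) (y s) g) =
        fun s => E (fun i => c i s) (y s) (f + g) := by
      funext s
      exact (map_add (E (fun i => c i s) (y s)) f g).symm
    rw [h2] at h1
    exact h1
  zero_mem' := by
    have h2 : (fun s => E (fun i => c i s) (y s) 0) = 0 := by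
      funext s
      exact map_zero (E (fun i => c i s) (y s))
    change S.Sm (fun s => E (fun i => c i s) (y s) 0)
    rw [h2]
    exact Scale.Sm.zero S
  smul_mem' := by
    intro f g hg
    have h1 := Scale.Sm.mul_md (hmd f) hg
    have h2 : (fun s => E (fun i => c i s) (y s) f) * (fun s => E (fun i => c i s) (y s) g) =
        fun s => E (fun i => c i s) (y s) (f • g) := by
      funext s
      exact (map_mul (E (fun i => c i s) (y s)) f g).symm
    rw [h2] at h1
    exact h1

theorem PI_prime (S : Scale) {n : ℕ} (c : Fin n → ℕ → ℝ) (y : ℕ → ℝ)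
    (hmd : ∀ f : Polynomial (MvPolynomial (Fin n) ℝ),
      S.Md (fun s => E (fun i => c i s) (y s) f)) : (PI S c y hmd).IsPrime := by
  refine ⟨?_, ?_⟩
  · rw [Ideal.ne_top_iff_one]
    intro h
    have h1 : S.Sm (fun s => E (fun i => c i s) (y s) 1) := h
    refine S.one_not_sm ?_
    have h2 : (fun s => E (fun i => c i s) (y s) 1) = 1 := by
      funext s
      exact map_one (E (fun i => c i s) (y s))
    rwa [h2] at h1
  · intro f g hfg
    have h1 : S.Sm (fun s => E (fun i => c i s) (y s) (f * g)) := hfg
    have h2 : (⟨_, hmd f⟩ * ⟨_, hmd g⟩ : S.OO) ∈ S.mm := by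
      change S.Sm ((fun s => E (fun i => c i s) (y s) f) *
        (fun s => E (fun i => c i s) (y s) g))
      have h3 : (fun s => E (fun i => c i s) (y s) f) * (fun s => E (fun i => c i s) (y s) g) =
          fun s => E (fun i => c i s) (y s) (f * g) := by
        funext s
        exact (map_mul (E (fun i => c i s) (y s)) f g).symm
      rw [h3]
      exact h1
    exact S.mm_isMaximal.isPrime.mem_or_mem h2

/-- a polynomial all of whose coefficients vanish eventually vanishes eventually -/
theorem map_zero_ev {S : Scale} {n : ℕ} {c' : Fin n → ℕ → ℝ}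
    (r : Polynomial (MvPolynomial (Fin n) ℝ))
    (h : ∀ k, ∀ᶠ s in (S.ω : Filter ℕ), MvPolynomial.eval (fun i => c' i s) (r.coeff k) = 0) :
    ∀ᶠ s in (S.ω : Filter ℕ), r.map (MvPolynomial.eval (fun i => c' i s)) = 0 := by
  have h1 : ∀ᶠ s in (S.ω : Filter ℕ), ∀ k ∈ Finset.range (r.natDegree + 1),
      MvPolynomial.eval (fun i => c' i s) (r.coeff k) = 0 := by
    rw [Filter.eventually_all_finset]
    exact fun k _ => h k
  filter_upwards [h1] with s hs
  ext k
  rw [Polynomial.coeff_map, Polynomial.coeff_zero]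
  by_cases hk : k ∈ Finset.range (r.natDegree + 1)
  · exact hs k hk
  · rw [Finset.mem_range, not_lt] at hk
    rw [Polynomial.coeff_eq_zero_of_natDegree_lt (by omega), map_zero]

/-- **LMT** -/
theorem lmt (h1 : SmpStmt) (h2 : ZerStmt) (h3 : PdvStmt) : LmtStmt := by
  intro S n
  induction n with
  | zero =>
    intro c _
    refine ⟨c, fun i => i.elim0, fun p hp => ?_⟩
    obtain ⟨r, hr⟩ : ∃ r, p = MvPolynomial.C r := ⟨_, MvPolynomial.eq_C_of_isEmpty p⟩
    subst hr
    simp only [MvPolynomial.eval_C] at hp ⊢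
    exact Filter.Eventually.of_forall fun _ => sm_const hp
  | succ n ih =>
    intro c hc
    obtain ⟨d, hd, ih'⟩ := ih (fun i => c i.succ) (fun i => hc i.succ)
    have hcE : ∀ s, (fun i => c i s) =
        (Fin.cons (c 0 s) (fun i : Fin n => c i.succ s) : Fin (n + 1) → ℝ) := by
      intro s
      funext i
      refine Fin.cases ?_ (fun i => ?_) i
      · rfl
      · rfl
    have hE := fun f => e_smp h1 (c := fun i : Fin n => c i.succ) (c' := d) (y := c 0)
      (fun i => hc i.succ) hd (hc 0) f
    have hS := fun p => h1 S n (fun i : Fin n => c i.succ) d (fun i => hc i.succ) hd p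
    have hP := PI_prime S (fun i : Fin n => c i.succ) (c 0) (fun f => (hE f).1)
    have hmemC : ∀ a : MvPolynomial (Fin n) ℝ,
        Polynomial.C a ∈ PI S (fun i : Fin n => c i.succ) (c 0) (fun f => (hE f).1) ↔
          S.Sm (fun s => MvPolynomial.eval (fun i : Fin n => c i.succ s) a) := by
      intro a
      change S.Sm (fun s => E (fun i : Fin n => c i.succ s) (c 0 s) (Polynomial.C a)) ↔ _
      simp only [E_C]
    rcases h3 (MvPolynomial (Fin n) ℝ) _ hP with hcase | ⟨q, hq, hdq, u, hu, hdiv⟩
    · refine ⟨Fin.cons (c 0) d, ?_, ?_⟩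
      · intro i
        refine Fin.cases ?_ (fun i => ?_) i
        · have h4 : (fun s => (Fin.cons (c 0) d : Fin (n + 1) → ℕ → ℝ) 0 s - c 0 s) = 0 := by
            funext s
            simp
          rw [h4]
          exact Scale.Sm.zero S
        · exact hd i
      · intro p hp
        simp only [hcE, eval_cons] at hp
        have h5 := hcase (MvPolynomial.finSuccEquiv ℝ n p) hp
        have h6 := map_zero_ev (S := S) (c' := d) (MvPolynomial.finSuccEquiv ℝ n p)
          (fun k => ih' _ ((hmemC _).1 (h5 k)))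
        filter_upwards [h6] with s hs
        rw [cons_at, eval_cons, E_apply, hs, Polynomial.eval_zero]
    · have h4 : ∀ k, S.Md (fun s => (q.map (MvPolynomial.eval (fun i => d i s))).coeff k) := by
        intro k
        simp only [Polynomial.coeff_map]
        exact md_of_diff (hS (q.coeff k)).1 (hS (q.coeff k)).2
      have h5 : S.Sm (fun s => (q.map (MvPolynomial.eval (fun i => d i s))).eval (c 0 s)) :=
        sm_of_diff (w := fun s => E (fun i => d i s) (c 0 s) q) hq (hE q).2
      have h6 : ¬ S.Sm (fun s =>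
          (q.map (MvPolynomial.eval (fun i => d i s))).derivative.eval (c 0 s)) := by
        intro h7
        simp only [Polynomial.derivative_map] at h7
        exact hdq (sm_of_diff' (w := fun s => E (fun i => d i s) (c 0 s) q.derivative) h7
          (hE q.derivative).2)
      obtain ⟨y', hy', hzero⟩ := h2 S q.natDegree
        (fun s => q.map (MvPolynomial.eval (fun i => d i s))) (c 0)
        (fun s => Polynomial.natDegree_map_le) h4 (hc 0) h5 h6
      refine ⟨Fin.cons y' d, ?_, ?_⟩
      · intro i
        refine Fin.cases ?_ (fun i => ?_) i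
        · exact hy'
        · exact hd i
      · intro p hp
        simp only [hcE, eval_cons] at hp
        obtain ⟨N, g, r, he, hr⟩ := hdiv (MvPolynomial.finSuccEquiv ℝ n p) hp
        have h7 := map_zero_ev (S := S) (c' := d) r (fun k => ih' _ ((hmemC _).1 (hr k)))
        have h8 : ¬ S.Sm (fun s => MvPolynomial.eval (fun i => d i s) u) := by
          intro h9
          exact hu ((hmemC u).2 (sm_of_diff' h9 (hS u).2))
        filter_upwards [h7, S.ne_zero_ev h8, hzero] with s hs hs2 hs3
        have h10 := congrArg (E (fun i => d i s) (y' s)) he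
        rw [map_mul, map_pow, E_C, map_add, map_mul, E_apply _ _ q, E_apply _ _ r, hs, hs3,
          Polynomial.eval_zero, mul_zero, add_zero] at h10
        rw [cons_at, eval_cons]
        exact (mul_eq_zero.1 h10).resolve_left (pow_ne_zero _ hs2)

end Pool.Agent.QSX.H92
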