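import Pool.Agent.QSX.StmtsE

/-!
# Row PRD of squad QSX: the space of a product datum
-/

set_option autoImplicit false

namespace Pool.Agent.QSX.H92

open Matrix Finset

/-- a vector is the concatenation of its two restrictions -/
theorem append_restr {m m' : ℕ} (c : Fin (m + m') → ℝ) :
    c = Fin.append (LinearMap.funLeft ℝ ℝ (Fin.castAdd m') c)
      (LinearMap.funLeft ℝ ℝ (Fin.natAdd m) c) := by
  funext i
  refine Fin.addCases (fun i => ?_) (fun i => ?_) i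
  · rw [Fin.append_left]; rfl
  · rw [Fin.append_right]; rfl

theorem restr_left {m m' : ℕ} (c : Fin m → ℝ) (d : Fin m' → ℝ) :
    LinearMap.funLeft ℝ ℝ (Fin.castAdd m') (Fin.append c d) = c := by
  funext i
  exact Fin.append_left c d i

theorem restr_right {m m' : ℕ} (c : Fin m → ℝ) (d : Fin m' → ℝ) :
    LinearMap.funLeft ℝ ℝ (Fin.natAdd m) (Fin.append c d) = d := by
  funext i
  exact Fin.append_right c d i

/-- the first part of a point of the product -/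
def nPart (X Y : Dat) (x : X.n) (y : Y.n) : (X.prod Y).n :=
  ⟨bd (x : Matrix (Fin X.m) (Fin X.m) ℝ) (y : Matrix (Fin Y.m) (Fin Y.m) ℝ),
    ⟨x, x.2, y, y.2, rfl⟩⟩

/-- the second part of a point of the product -/
def bPart (X Y : Dat) (c : X.b) (d : Y.b) : (X.prod Y).b :=
  ⟨Fin.append (c : Fin X.m → ℝ) (d : Fin Y.m → ℝ), by
    refine ⟨?_, ?_⟩
    · change LinearMap.funLeft ℝ ℝ (Fin.castAdd Y.m)
        (Fin.append (c : Fin X.m → ℝ) (d : Fin Y.m → ℝ)) ∈ X.b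
      rw [restr_left]
      exact c.2
    · change LinearMap.funLeft ℝ ℝ (Fin.natAdd X.m)
        (Fin.append (c : Fin X.m → ℝ) (d : Fin Y.m → ℝ)) ∈ Y.b
      rw [restr_right]
      exact d.2⟩

/-- the map of the product of the spaces to the space of the product datum -/
def pr (X Y : Dat) (p : X.Pt × Y.Pt) : (X.prod Y).Pt :=
  (nPart X Y p.1.1 p.2.1, bPart X Y p.1.2 p.2.2)

theorem pr_inj (X Y : Dat) : Function.Injective (pr X Y) := by
  rintro ⟨⟨x, c⟩, ⟨y, d⟩⟩ ⟨⟨x', c'⟩, ⟨y', d'⟩⟩ h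
  have h1 : nPart X Y x y = nPart X Y x' y' := congrArg Prod.fst h
  have h2 : bPart X Y c d = bPart X Y c' d' := congrArg Prod.snd h
  have h3 := bd_inj (congrArg Subtype.val h1)
  have h4 : Fin.append (c : Fin X.m → ℝ) (d : Fin Y.m → ℝ) =
      Fin.append (c' : Fin X.m → ℝ) (d' : Fin Y.m → ℝ) := congrArg Subtype.val h2
  have h5 : (c : Fin X.m → ℝ) = c' := by
    rw [← restr_left (c : Fin X.m → ℝ) (d : Fin Y.m → ℝ), h4, restr_left]
  have h6 : (d : Fin Y.m → ℝ) = d' := by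
    rw [← restr_right (c : Fin X.m → ℝ) (d : Fin Y.m → ℝ), h4, restr_right]
  have e1 : x = x' := Subtype.ext h3.1
  have e2 : y = y' := Subtype.ext h3.2
  have e3 : c = c' := Subtype.ext h5
  have e4 : d = d' := Subtype.ext h6
  rw [e1, e2, e3, e4]

theorem pr_surj (X Y : Dat) : Function.Surjective (pr X Y) := by
  rintro ⟨⟨z, x, hx, y, hy, hz⟩, ⟨c, hc, hc'⟩⟩
  refine ⟨((⟨x, hx⟩, ⟨_, hc⟩), (⟨y, hy⟩, ⟨_, hc'⟩)), ?_⟩
  refine Prod.ext ?_ ?_
  · exact Subtype.ext hz.symm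
  · exact Subtype.ext (append_restr c).symm

theorem pr_mat (h1 : EbdStmt) (X Y : Dat) (p : X.Pt × Y.Pt) :
    (X.prod Y).mat (pr X Y p) = bdU (X.mat p.1) (Y.mat p.2) := by
  have e1 := (h1.1 ℝ X.m Y.m (p.1.1 : Matrix (Fin X.m) (Fin X.m) ℝ)
    (p.2.1 : Matrix (Fin Y.m) (Fin Y.m) ℝ) (X.su _ p.1.1.2) (Y.su _ p.2.1.2)).2
  have e2 := h1.2 X.m Y.m (p.1.2 : Fin X.m → ℝ) (p.2.2 : Fin Y.m → ℝ)
  have e3 : (X.prod Y).mat (pr X Y p) =
      ue (bd (p.1.1 : Matrix (Fin X.m) (Fin X.m) ℝ) (p.2.1 : Matrix (Fin Y.m) (Fin Y.m) ℝ)) *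
        ud (Fin.append (p.1.2 : Fin X.m → ℝ) (p.2.2 : Fin Y.m → ℝ)) := rfl
  rw [e3, e1, e2, bdU_mul]
  rfl

/-- **PRD** -/
theorem prd (h1 : EbdStmt) (h2 : EbnStmt) : PrdStmt := by
  intro X Y
  refine ⟨pr X Y, ⟨pr_inj X Y, pr_surj X Y⟩, pr_mat h1 X Y, ?_⟩
  intro p q
  have key : ∀ g h : (Matrix (Fin (X.m + Y.m)) (Fin (X.m + Y.m)) ℝ)ˣ,
      g = bdU (X.mat p.1) (Y.mat p.2) → h = bdU (X.mat q.1) (Y.mat q.2) →
      len (g⁻¹ * h) = max (X.dist p.1 q.1) (Y.dist p.2 q.2) := by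
    rintro g h rfl rfl
    rw [bdU_inv, bdU_mul]
    exact (h2 X.m Y.m).2 ((X.mat p.1)⁻¹ * X.mat q.1) ((Y.mat p.2)⁻¹ * Y.mat q.2)
  exact key _ _ (pr_mat h1 X Y p) (pr_mat h1 X Y q)

end Pool.Agent.QSX.H92
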